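import Pool.Agent.U198.AC.Pa

/-!
Self-avoiding polygons on the square lattice: analytic continuation, across the circle of
convergence, of the generating functions of all moments of the area.
-/

set_option autoImplicit false

namespace Pool.Agent.Results.MP_2250b1_co.AreaContinuation

open Filter Topology

/-- `ω` is an `n`-step self-avoiding walk on `ℤ²` started at the origin. -/
def IsSAW (n : ℕ) (ω : Fin (n + 1) → ℤ × ℤ) : Prop :=
  ω 0 = (0, 0) ∧
  (∀ i : Fin n, |(ω i.succ).1 - (ω i.castSucc).1| + |(ω i.succ).2 - (ω i.castSucc).2| = 1) ∧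
  Function.Injective ω

/-- the number of `n`-step self-avoiding walks on `ℤ²` started at the origin -/
noncomputable def c (n : ℕ) : ℕ := {ω | IsSAW n ω}.ncard

/-- a closed nearest-neighbour loop on `ℤ²` with `m` steps, rooted at the origin and oriented,
that visits no vertex twice -/
def IsLoop (m : ℕ) (f : ZMod m → ℤ × ℤ) : Prop :=
  f 0 = 0 ∧ Function.Injective f ∧
    ∀ i : ZMod m, |(f (i + 1)).1 - (f i).1| + |(f (i + 1)).2 - (f i).2| = 1

/-- the edge from `f k` to `f (k+1)` is horizontal, joins the columns `x = a` and `x = a + 1`, and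
has height larger than `b`: it lies above the unit cell `[a, a+1] × [b, b+1]` -/
def Above (m : ℕ) (f : ZMod m → ℤ × ℤ) (a b : ℤ) (k : ZMod m) : Prop :=
  (((f k).1 = a ∧ (f (k + 1)).1 = a + 1) ∨ ((f k).1 = a + 1 ∧ (f (k + 1)).1 = a)) ∧ b < (f k).2

/-- the unit cell `[a, a+1] × [b, b+1]` is enclosed by the loop: the vertical ray from the cell
upwards crosses an odd number of edges -/
def Encl (m : ℕ) (f : ZMod m → ℤ × ℤ) (c : ℤ × ℤ) : Prop :=
  Odd (Nat.card {k : ZMod m // Above m f c.1 c.2 k})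

/-- the area: the number of unit cells enclosed by the loop -/
noncomputable def area (m : ℕ) (f : ZMod m → ℤ × ℤ) : ℕ := Nat.card {c : ℤ × ℤ // Encl m f c}

/-- the sum of the `k`-th powers of the areas of the self-avoiding polygons of perimeter `2 n`
(up to translation): each of them corresponds to `4 n` loops, by the choices of the starting point
and of the orientation. For `k = 0` this is the number `p_{2n}` of polygons, for `k = 1` it is
`p_{2n} A_n`. -/
noncomputable def S (k n : ℕ) : ℝ :=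
  (∑ᶠ f ∈ {f : ZMod (2 * n) → ℤ × ℤ | IsLoop (2 * n) f}, (area (2 * n) f : ℝ) ^ k) / (4 * (n : ℝ))

/-- `cos (2 arg z)` for `z ≠ 0` -/
noncomputable def cos2 (z : ℂ) : ℝ := (z ^ 2).re / ‖z‖ ^ 2

/-- The domain `|z| < (1 + δ (1 - cos (2 arg z))) / μ`: the disc `|z| < 1/μ` enlarged at all points
of the circle `|z| = 1/μ` except `±1/μ`. -/
def Dom (μ δ : ℝ) : Set ℂ := {z | μ * ‖z‖ < 1 + δ * (1 - cos2 z)}

open Pool.Agent.H976R2 Pool.Agent.N929.EZ Pool.Agent.H739K Pool.Agent.N929.AC Pool.Agent.U198.AC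

theorem S_eq (k : ℕ) {n : ℕ} (hn : 2 ≤ n) :
    S k n = (∑ w ∈ KP (2 * n - 1), (ar w : ℝ) ^ k) / (4 * (n : ℝ)) := by
  obtain ⟨h1, h2, -⟩ := Pool.Agent.H739K.CONV_proof n hn
  unfold S
  have e1 : {f : ZMod (2 * n) → ℤ × ℤ | IsLoop (2 * n) f} =
    {f : ZMod (2 * n) → ℤ × ℤ | Pool.Agent.H924P.IsLoop (2 * n) f} := rfl
  rw [e1, h1 (fun f => (area (2 * n) f : ℝ) ^ k)]
  congr 1
  refine Finset.sum_congr rfl (fun w hw => ?_)
  have hl := (KP_mem hw).2.2
  unfold ar
  rw [hl, show 2 * n - 1 + 1 = 2 * n by omega]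
  rfl

/-- **Theorem.** Let `μ` be the connective constant of `ℤ²`. There is `δ > 0` such that for every
`k ≥ 0` the generating function `∑_{n ≥ 2} (∑_P area(P)^k) z^(2n)` of the `k`-th moments of the area
of the self-avoiding polygons (by perimeter) extends holomorphically from the disc `|z| < 1/μ` to
the connected open domain `Dom μ δ`, which contains all points of the circle `|z| = 1/μ` except
`z = 1/μ` and `z = -1/μ` and does not depend on `k`. -/
theorem result : ∃ μ : ℝ, 1 ≤ μ ∧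
    Tendsto (fun n : ℕ => (c n : ℝ) ^ (1 / (n : ℝ))) atTop (𝓝 μ) ∧
    ∃ δ : ℝ, 0 < δ ∧
    (IsOpen (Dom μ δ) ∧ IsPreconnected (Dom μ δ) ∧ (∀ z : ℂ, μ * ‖z‖ < 1 → z ∈ Dom μ δ) ∧
      ∀ z : ℂ, μ * ‖z‖ = 1 → z ≠ ((1 / μ : ℝ) : ℂ) → z ≠ ((-(1 / μ) : ℝ) : ℂ) → z ∈ Dom μ δ) ∧
    ∀ k : ℕ, ∃ F : ℂ → ℂ, DifferentiableOn ℂ F (Dom μ δ) ∧
      ∀ z : ℂ, μ * ‖z‖ < 1 → HasSum (fun n => (S k (n + 2) : ℂ) * z ^ (2 * (n + 2))) (F z) := by
  obtain ⟨μ, hμ, hlim, δ, hδ, ⟨d1, d2, d3, d4⟩, h⟩ := pg_main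
  refine ⟨μ, hμ, ?_, δ, hδ, ⟨d1, d2, d3, fun z hz z1 z2 => ?_⟩, fun k => ?_⟩
  · refine hlim.congr fun n => ?_
    congr 1
    exact_mod_cast (Pool.Agent.H976R2.ncard_saw n).symm
  · refine d4 z hz fun h3 => ?_
    have hn : ‖z‖ = 1 / μ := by field_simp; linarith
    rw [hn] at h3
    rcases sq_eq_sq_iff_eq_or_eq_neg.1 h3 with h4 | h4
    · exact z1 h4
    · exact z2 (by rw [h4]; push_cast; rfl)
  · obtain ⟨F, h1, h2⟩ := h (fun w => (ar w : ℝ) ^ k) (6 ^ k) (2 * k) (by positivity)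
      (fun L hL st fl hfl w hw hs h3 => rp_ar_pow hL hfl hw hs h3 k)
    refine ⟨F, h1, fun z hz => ?_⟩
    have h3 := h2 z hz
    have hinj : Function.Injective (fun n : ℕ => 2 * (n + 2)) := fun a b h => by
      simp only at h
      omega
    rw [← hinj.hasSum_iff] at h3
    · refine (congrArg (fun g => HasSum g (F z)) ?_).mp h3
      funext n
      have e : pw (fun w => (ar w : ℝ) ^ k) (2 * (n + 2)) = S k (n + 2) := by
        unfold pw
        rw [if_pos ⟨by simp, by omega⟩, S_eq k (by omega)]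
        congr 1
        push_cast
        ring
      show (pw (fun w => (ar w : ℝ) ^ k) (2 * (n + 2)) : ℂ) * z ^ (2 * (n + 2)) = _
      rw [e]
    · intro m hm
      have e : pw (fun w => (ar w : ℝ) ^ k) m = 0 := by
        unfold pw
        rw [if_neg]
        rintro ⟨he, h4⟩
        apply hm
        obtain ⟨k, hk⟩ := he
        exact ⟨k - 2, by simp only; omega⟩
      rw [e]
      simp

end Pool.Agent.Results.MP_2250b1_co.AreaContinuation
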