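import Pool.Agent.U262.AR.P5

/-!
The mean area of the planar self-avoiding polygons with an area weight: the free energy is a
transform of the areas of the level sets of the free energy of the self-avoiding walk with a force
at its end point (the Wulff shapes).
-/

set_option autoImplicit false

namespace Pool.Agent.Results.MP_2250b1_co.MeanAreaUnderPressure

/-- a closed nearest-neighbour loop on `ℤ²` with `m` steps, rooted at the origin and oriented,
that visits no vertex twice -/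
def IsLoop (m : ℕ) (f : ZMod m → ℤ × ℤ) : Prop :=
  f 0 = 0 ∧ Function.Injective f ∧
    ∀ i : ZMod m, |(f (i + 1)).1 - (f i).1| + |(f (i + 1)).2 - (f i).2| = 1

/-- the edge from `f k` to `f (k+1)` is horizontal, joins the columns `x = a` and `x = a + 1`, and
has height larger than `b`: it lies above the unit cell `[a, a+1] × [b, b+1]` -/
def Above (m : ℕ) (f : ZMod m → ℤ × ℤ) (a b : ℤ) (k : ZMod m) : Prop :=
  (((f k).1 = a ∧ (f (k + 1)).1 = a + 1) ∨ ((f k).1 = a + 1 ∧ (f (k + 1)).1 = a)) ∧ b < (f k).2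

/-- the unit cell `[a, a+1] × [b, b+1]` is enclosed by the loop: the vertical ray from the cell
upwards crosses an odd number of edges -/
def Encl (m : ℕ) (f : ZMod m → ℤ × ℤ) (c : ℤ × ℤ) : Prop :=
  Odd (Nat.card {k : ZMod m // Above m f c.1 c.2 k})

/-- the area: the number of unit cells enclosed by the loop -/
noncomputable def area (m : ℕ) (f : ZMod m → ℤ × ℤ) : ℕ := Nat.card {c : ℤ × ℤ // Encl m f c}

/-- the self-avoiding loops with `2 n` steps -/
def loops (n : ℕ) : Set (ZMod (2 * n) → ℤ × ℤ) := {f | IsLoop (2 * n) f}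

/-- the mean of `exp (t A / n)` for the area `A` of the uniform self-avoiding polygon of perimeter
`2 n` -/
noncomputable def press (n : ℕ) (t : ℝ) : ℝ :=
  (∑ᶠ f ∈ loops n, Real.exp (t * area (2 * n) f / n)) / (loops n).ncard

/-- the mean area of the self-avoiding polygons of perimeter `2 n` with the weight
`exp (t A / n)` -/
noncomputable def meanArea (n : ℕ) (t : ℝ) : ℝ :=
  (∑ᶠ f ∈ loops n, (area (2 * n) f : ℝ) * Real.exp (t * area (2 * n) f / n)) /
    ∑ᶠ f ∈ loops n, Real.exp (t * area (2 * n) f / n)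

/-- `ω` is an `n`-step self-avoiding walk on `ℤ²` started at the origin. -/
def IsSAW (n : ℕ) (ω : Fin (n + 1) → ℤ × ℤ) : Prop :=
  ω 0 = (0, 0) ∧
  (∀ i : Fin n, |(ω i.succ).1 - (ω i.castSucc).1| + |(ω i.succ).2 - (ω i.castSucc).2| = 1) ∧
  Function.Injective ω

/-- `c_n`: the number of `n`-step self-avoiding walks from the origin -/
noncomputable def c (n : ℕ) : ℕ := Nat.card {ω : Fin (n + 1) → ℤ × ℤ // IsSAW n ω}

/-- the mean of `exp (l · ω(n))` under the uniform law on the `n`-step self-avoiding walks -/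
noncomputable def force (n : ℕ) (l : ℝ × ℝ) : ℝ :=
  (∑ᶠ ω ∈ {ω : Fin (n + 1) → ℤ × ℤ | IsSAW n ω},
    Real.exp (l.1 * (ω (Fin.last n)).1 + l.2 * (ω (Fin.last n)).2)) / (c n : ℝ)

/-- the area (Lebesgue measure) of the set `{L ≤ h}` -/
noncomputable def V (L : ℝ × ℝ → ℝ) (h : ℝ) : ℝ :=
  (MeasureTheory.volume {l : ℝ × ℝ | L l ≤ h}).toReal

theorem c_eq (n : ℕ) : c n = TH795.EP.c n := TH795.EP2.card_walks n

open Pool.Agent.TH795.EP in
theorem force_eq (n : ℕ) (l : ℝ × ℝ) : force n l = Y981.L2.Z l n / TH795.EP.c n := by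
  unfold force
  rw [c_eq]
  congr 1
  have h1 := TH795.EP2.finsum_walks n (fun ω =>
    Real.exp (l.1 * (ω (Fin.last n)).1 + l.2 * (ω (Fin.last n)).2))
  refine h1.trans ?_
  unfold Y981.L2.Z
  apply Finset.sum_congr rfl
  intro w hw
  rw [mem_fs] at hw
  rw [TH795.EP2.ew_last n hw.2]

theorem fin_loops {n : ℕ} (hn : 2 ≤ n) : (loops n).Finite :=
  U262.SW.loops_fin (M := 2 * n) (by omega)

theorem toFin {n : ℕ} (hn : 2 ≤ n) : (fin_loops hn).toFinset = U262.AR.lps n := by
  rw [U262.AR.lps_eq hn]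
  rfl

theorem card_loops {n : ℕ} (hn : 2 ≤ n) : (loops n).ncard = (U262.AR.lps n).card := by
  rw [Set.ncard_eq_toFinset_card _ (fin_loops hn), toFin hn]

theorem press_eq {n : ℕ} (hn : 2 ≤ n) (t : ℝ) : press n t = U262.AR.ZS U262.AR.lps U262.AR.na n t := by
  have hn0 : (0 : ℝ) < n := by exact_mod_cast (by omega : 0 < n)
  unfold press U262.AR.ZS
  rw [card_loops hn, finsum_mem_eq_finite_toFinset_sum _ (fin_loops hn), toFin hn]
  congr 1
  apply Finset.sum_congr rfl
  intro f _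
  congr 1
  unfold U262.AR.na
  have : (area (2 * n) f : ℝ) = (U262.AR.area (2 * n) f : ℝ) := rfl
  rw [this]
  field_simp

theorem mean_eq {n : ℕ} (hn : 2 ≤ n) (t : ℝ) :
    meanArea n t / (n : ℝ) ^ 2 = U262.AR.ES U262.AR.lps U262.AR.na n t := by
  have hn0 : (0 : ℝ) < n := by exact_mod_cast (by omega : 0 < n)
  unfold meanArea U262.AR.ES
  rw [finsum_mem_eq_finite_toFinset_sum _ (fin_loops hn),
    finsum_mem_eq_finite_toFinset_sum _ (fin_loops hn), toFin hn, div_right_comm]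
  have e : ∀ f : ZMod (2 * n) → ℤ × ℤ, Real.exp (t * area (2 * n) f / n) =
      Real.exp (t * (n * U262.AR.na n f)) := by
    intro f
    congr 1
    unfold U262.AR.na
    have : (area (2 * n) f : ℝ) = (U262.AR.area (2 * n) f : ℝ) := rfl
    rw [this]
    field_simp
  simp only [e]
  congr 1
  rw [Finset.sum_div]
  apply Finset.sum_congr rfl
  intro f _
  unfold U262.AR.na
  rw [mul_div_right_comm]
  rfl

open Filter Topology

/-- **Theorem.** There are functions `L` on `ℝ²` and `F` on `ℝ` and a number `tc` such that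
(1) `1/n log E_n[exp (l · ω(n))]` converges to `L(l)` for every force `l`, for the uniform `n`-step
self-avoiding walk `ω`; `L(l) > 0` if `l ≠ 0`, and the level sets `{L ≤ h}` have finite areas `V(h)`;
(2) for the uniform self-avoiding polygon of perimeter `2 n` with area `A`, and every real `t`,
`1/n log E_n[exp (t A / n)]` converges to `F(t)`; `F` is convex, `F(t) = 0` for `t ≤ 0`, and
`F(t) = sup_(h ≥ 0) (2 h - V(h) / t)` for `t > 0`;
(3) `tc = inf_(h > 0) V(h) / (2 h)`, and `F(t) > 0` if and only if `t > tc`;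
(4) let `M_n(t)` be the mean area of the polygons of perimeter `2 n` with the weight
`exp (t A / n)`.  If `F` has the derivative `d` at `t`, then `M_n(t) / n^2` converges to `d`, and
`d = V(h) / t^2` if `t > 0` and the supremum in (2) is attained at `h`.  In particular
`M_n(t) / n^2` converges to `0` for `t < tc`, and it is bounded below by a positive constant for
`t > tc`. -/
theorem result : ∃ (L : ℝ × ℝ → ℝ) (F : ℝ → ℝ) (tc : ℝ),
    (∀ l : ℝ × ℝ, Tendsto (fun n : ℕ => Real.log (force n l) / n) atTop (𝓝 (L l))) ∧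
    (∀ l : ℝ × ℝ, l ≠ (0, 0) → 0 < L l) ∧
    (∀ h : ℝ, MeasureTheory.volume {l : ℝ × ℝ | L l ≤ h} ≠ ⊤) ∧
    (∀ t : ℝ, Tendsto (fun n : ℕ => Real.log (press n t) / n) atTop (𝓝 (F t))) ∧
    ConvexOn ℝ Set.univ F ∧ (∀ t : ℝ, t ≤ 0 → F t = 0) ∧
    (∀ t : ℝ, 0 < t → IsLUB {r | ∃ h : ℝ, 0 ≤ h ∧ r = 2 * h - V L h / t} (F t)) ∧
    IsGLB {r | ∃ h : ℝ, 0 < h ∧ r = V L h / (2 * h)} tc ∧ (∀ t : ℝ, 0 < F t ↔ tc < t) ∧
    (∀ t d : ℝ, HasDerivAt F d t →
      Tendsto (fun n : ℕ => meanArea n t / (n : ℝ) ^ 2) atTop (𝓝 d) ∧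
      ∀ h : ℝ, 0 < t → 0 ≤ h → F t = 2 * h - V L h / t → d = V L h / t ^ 2) ∧
    (∀ t : ℝ, t < tc → Tendsto (fun n : ℕ => meanArea n t / (n : ℝ) ^ 2) atTop (𝓝 0)) ∧
    ∀ t : ℝ, tc < t → ∃ δ : ℝ, 0 < δ ∧ ∀ᶠ n : ℕ in atTop, δ * (n : ℝ) ^ 2 ≤ meanArea n t := by
  have hbd : BddBelow {r | ∃ h : ℝ, 0 < h ∧ r = U262.AR.VV h / (2 * h)} := by
    refine ⟨0, ?_⟩
    rintro r ⟨h, hh, rfl⟩
    have := U262.AR.vv_nonneg h
    positivity
  have hglb := isGLB_csInf (⟨_, 1, one_pos, rfl⟩ :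
    {r | ∃ h : ℝ, 0 < h ∧ r = U262.AR.VV h / (2 * h)}.Nonempty) hbd
  obtain ⟨tc, htc⟩ : ∃ tc, tc = sInf {r | ∃ h : ℝ, 0 < h ∧ r = U262.AR.VV h / (2 * h)} := ⟨_, rfl⟩
  rw [← htc] at hglb
  obtain ⟨F, hFd⟩ : ∃ F, F = U262.AR.FS U262.AR.JJ := ⟨_, rfl⟩
  have hlim : ∀ t, Tendsto (fun n : ℕ => Real.log (U262.AR.ZS U262.AR.lps U262.AR.na n t) / n)
      atTop (𝓝 (F t)) := by
    rw [hFd]
    exact U262.AR.zs_limit
  have hnn : ∀ t, 0 ≤ F t := by
    rw [hFd]
    exact U262.AR.fs_nonneg U262.AR.jj_nn (U262.AR.jj_nonpos le_rfl)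
  have hiff : ∀ t : ℝ, 0 < F t ↔ tc < t := by
    intro t
    rw [hFd]
    exact U262.AR.fs_pos_iff hglb
  have hder : ∀ t d : ℝ, HasDerivAt F d t →
      Tendsto (fun n : ℕ => meanArea n t / (n : ℝ) ^ 2) atTop (𝓝 d) := by
    intro t d hd
    refine (U262.AR.es_deriv U262.AR.lps_ne hlim hd).congr' ?_
    filter_upwards [eventually_ge_atTop 2] with n hn
    rw [mean_eq hn]
  have hz : ∀ t : ℝ, t ≤ tc → F t = 0 := by
    intro t ht
    apply le_antisymm _ (hnn t)
    by_contra hcon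
    push Not at hcon
    exact absurd ((hiff t).1 hcon) (not_lt.2 ht)
  refine ⟨Y981.L2.Lam, F, tc, ?_, ?_, fun h => U262.AR.vol_fin h, ?_, ?_, ?_, ?_, hglb, hiff,
    ?_, ?_, ?_⟩
  · intro l
    refine (U262.AR.lam_lim l).congr fun n => ?_
    rw [force_eq]
  · intro l hl
    by_contra hcon
    exact hl (U262.AR.lam_zero_iff.1 (not_lt.1 hcon))
  · intro t
    refine (hlim t).congr' ?_
    filter_upwards [eventually_ge_atTop 2] with n hn
    rw [press_eq hn]
  · rw [hFd]
    exact U262.AR.fs_convex U262.AR.jj_nn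
  · intro t ht
    rw [hFd]
    exact U262.AR.fs_neg U262.AR.jj_nn (U262.AR.jj_nonpos le_rfl) ht
  · intro t ht
    rw [hFd]
    exact U262.AR.fs_wulff ht
  · intro t d hd
    refine ⟨hder t d hd, ?_⟩
    intro h ht hh hF
    rw [hFd] at hF hd
    exact U262.AR.deriv_eq ht hh hF hd
  · intro t ht
    apply hder t 0
    have h1 : F =ᶠ[𝓝 t] fun _ => 0 := by
      filter_upwards [eventually_lt_nhds ht] with x hx
      exact hz x hx.le
    exact (hasDerivAt_const t (0 : ℝ)).congr_of_eventuallyEq h1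
  · intro t ht
    have hFt := (hiff t).2 ht
    have hd : 0 < t - tc := by linarith
    refine ⟨(F t - F tc) / (t - tc) / 2, ?_, ?_⟩
    · rw [hz tc le_rfl, sub_zero]
      positivity
    · have hpos : 0 < (F t - F tc) / (t - tc) := by
        rw [hz tc le_rfl, sub_zero]
        positivity
      have hsl := U262.AR.es_slope U262.AR.lps_ne hlim ht (show t < t + 1 by linarith)
        (show 0 < (F t - F tc) / (t - tc) / 2 by linarith)
      filter_upwards [hsl, eventually_ge_atTop 2] with n h1 hn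
      have hn0 : (0 : ℝ) < n := by exact_mod_cast (by omega : 0 < n)
      rw [← mean_eq hn] at h1
      have h2 := h1.1
      rw [lt_div_iff₀ (by positivity)] at h2
      refine le_trans (le_of_eq ?_) h2.le
      ring

end Pool.Agent.Results.MP_2250b1_co.MeanAreaUnderPressure
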