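import Pool.Agent.U17.TS.Form
import Pool.Agent.Results.MP_2250b1_co.AllOrders

/-!
# The mean area of self-avoiding polygons at two scales
-/

set_option autoImplicit false

namespace Pool.Agent.Results.MP_2250b1_co.TwoScales

open Filter Topology Pool.Agent.Results.MP_2250b1_co.AllOrders

/-- `a, b ≥ 2` and no power of `a` is a power of `b`, for instance `a = 2` and `b = 3` -/
def Independent (a b : ℕ) : Prop :=
  2 ≤ a ∧ 2 ≤ b ∧ ∀ i j : ℕ, 0 < i → 0 < j → a ^ i ≠ b ^ j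

/-- integers `v_j → ∞` with gaps at most `v_j ^ e` -/
def Sparse (e : ℝ) (v : ℕ → ℕ) : Prop :=
  Tendsto v atTop atTop ∧ ∀ᶠ j : ℕ in atTop, (v (j + 1) : ℝ) ≤ v j + (v j : ℝ) ^ e

/-- The expansion `θ log n + ∑ c_i n ^ (-τ_i)`. -/
noncomputable def expansion (q : ℕ) (θ : ℝ) (c τ : Fin q → ℝ) (n : ℕ) : ℝ :=
  θ * Real.log n + ∑ i, c i * (n : ℝ) ^ (-(τ i))

theorem expansion_eq (q : ℕ) (θ : ℝ) (c τ : Fin q → ℝ) (n : ℕ) :
    expansion q θ c τ n = Pool.Agent.N226.SX.G q θ c τ n := rfl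

open Pool.Agent.H976R2 Pool.Agent.N929.EZ Pool.Agent.H739K in
theorem A_pos (k : ℕ) {n : ℕ} (hn : 2 ≤ n) : 0 < A k n := by
  rw [A_eq k hn]
  have h1 := area_low_pow (n := 2 * n - 1) (by omega) (by omega) k
  have h2 := KP_pos (n := 2 * n - 1) (by omega) (by omega)
  refine div_pos (lt_of_lt_of_le ?_ h1) h2
  positivity

/-- Let `A_n(k)` be the moment of order `k` of the area of the self-avoiding polygons of perimeter
`2 n` on `ℤ²` (`k = 1`: the mean area `A_n`), `a` and `b` independent integers, for instance `2` and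
`3`, and let `v_j → ∞`, `w_j → ∞` be integers with gaps at most `v_j ^ e`, `w_j ^ e` for some
`e < 1 / 2`, and `M > 0`.

(1) For every real `θ`: `A_n(k) = c₀ n ^ θ (1 + O(n ^ (-M)))` for some `c₀ > 0`, along all `n`, if
and only if `A_{a n}(k) / A_n(k) = a ^ θ + O(n ^ (-M))` along `n = v_j` and
`A_{b n}(k) / A_n(k) = b ^ θ + O(n ^ (-M))` along `n = w_j`.

(2) For every finite expansion `G(n) = θ log n + ∑ c_i n ^ (-τ_i)` with `τ_i ≥ 0`:
`log (A_{a n}(k) / A_n(k)) = G(a n) - G(n) + O(n ^ (-M))` along `n = v_j` and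
`log (A_{b n}(k) / A_n(k)) = G(b n) - G(n) + O(n ^ (-M))` along `n = w_j` if and only if there is
`c₀ > 0` such that for all `r ≥ 0` and `x < 1 / 2` the `r`-th difference of
`log A_n(k) - log c₀ - G(n)` is `O(n ^ (-M - x r))`, along all `n`. -/
theorem result : ∀ (k a b : ℕ), Independent a b → ∀ e : ℝ, 0 ≤ e → e < 1 / 2 →
    ∀ v w : ℕ → ℕ, Sparse e v → Sparse e w → ∀ M : ℝ, 0 < M →
    (∀ θ : ℝ,
      ((∃ C : ℝ, ∀ᶠ j : ℕ in atTop,
          |A k (a * v j) / A k (v j) - (a : ℝ) ^ θ| ≤ C * (v j : ℝ) ^ (-M)) ∧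
        ∃ C : ℝ, ∀ᶠ j : ℕ in atTop,
          |A k (b * w j) / A k (w j) - (b : ℝ) ^ θ| ≤ C * (w j : ℝ) ^ (-M)) ↔
      ∃ c₀ : ℝ, 0 < c₀ ∧ ∃ C : ℝ, ∀ᶠ n : ℕ in atTop,
        |A k n / (n : ℝ) ^ θ - c₀| ≤ C * (n : ℝ) ^ (-M)) ∧
    ∀ (q : ℕ) (θ : ℝ) (c τ : Fin q → ℝ), (∀ i, 0 ≤ τ i) →
      (((∃ C : ℝ, ∀ᶠ j : ℕ in atTop,
          |Real.log (A k (a * v j) / A k (v j)) -
            (expansion q θ c τ (a * v j) - expansion q θ c τ (v j))| ≤ C * (v j : ℝ) ^ (-M)) ∧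
        ∃ C : ℝ, ∀ᶠ j : ℕ in atTop,
          |Real.log (A k (b * w j) / A k (w j)) -
            (expansion q θ c τ (b * w j) - expansion q θ c τ (w j))| ≤ C * (w j : ℝ) ^ (-M)) ↔
      ∃ c₀ : ℝ, 0 < c₀ ∧ ∀ (r : ℕ) (x : ℝ), 0 ≤ x → x < 1 / 2 → ∃ C : ℝ, ∀ᶠ n : ℕ in atTop,
        |∑ i ∈ Finset.range (r + 1), (-1 : ℝ) ^ i * (r.choose i : ℝ) *
          (Real.log (A k (n + i)) - Real.log c₀ - expansion q θ c τ (n + i))| ≤
          C * (n : ℝ) ^ (-(M + x * r))) := by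
  rintro k a b ⟨ha, hb, hab⟩ e he0 he v w ⟨hv, hvg⟩ ⟨hw, hwg⟩ M hM
  have hX : ∀ᶠ n : ℕ in atTop, 0 < A k n :=
    (eventually_ge_atTop 2).mono fun n hn => A_pos k hn
  have hreg : Pool.Agent.N226.SX.Reg (1 / 2) (fun n : ℕ => Real.log (A k n)) := by
    refine Pool.Agent.N226.SX.reg_of_log_one fun r hr => ?_
    obtain ⟨K, hK⟩ := Pool.Agent.Results.MP_2250b1_co.AllOrders.result k r hr
    exact ⟨K, (eventually_ge_atTop 2).mono fun n hn => hK n hn⟩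
  refine ⟨fun θ => ?_, fun q θ c τ hτ => ?_⟩
  · exact Pool.Agent.U17.TS.ratio_iff (by norm_num) (by norm_num) hX hreg ha hb hab hM e he0 he
      v hv hvg w hw hwg θ
  · exact Pool.Agent.U17.TS.form_iff (g := expansion q θ c τ) (by norm_num) (by norm_num) hX hreg
      (Pool.Agent.N226.SX.reg_G1 (1 / 2) (by norm_num) q θ c τ hτ) ha hb hab hM e he0 he
      v hv hvg w hw hwg

end Pool.Agent.Results.MP_2250b1_co.TwoScales
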