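import Pool.Agent.U262.AR.V5

/-!
The large deviations of the area of the planar self-avoiding polygons, at the scale of the square of
the perimeter: the rate is given by the areas of the level sets of the free energy of the
self-avoiding walk with a force at its end point (the Wulff shapes).
-/

set_option autoImplicit false

namespace Pool.Agent.Results.MP_2250b1_co.WulffFormula

/-- a closed nearest-neighbour loop on `ℤ²` with `m` steps, rooted at the origin and oriented,
that visits no vertex twice -/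
def IsLoop (m : ℕ) (f : ZMod m → ℤ × ℤ) : Prop :=
  f 0 = 0 ∧ Function.Injective f ∧
    ∀ i : ZMod m, |(f (i + 1)).1 - (f i).1| + |(f (i + 1)).2 - (f i).2| = 1

/-- the edge from `f k` to `f (k+1)` is horizontal, joins the columns `x = a` and `x = a + 1`, and
has height larger than `b`: it lies above the unit cell `[a, a+1] × [b, b+1]` -/
def Above (m : ℕ) (f : ZMod m → ℤ × ℤ) (a b : ℤ) (k : ZMod m) : Prop :=
  (((f k).1 = a ∧ (f (k + 1)).1 = a + 1) ∨ ((f k).1 = a + 1 ∧ (f (k + 1)).1 = a)) ∧ b < (f k).2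

/-- the unit cell `[a, a+1] × [b, b+1]` is enclosed by the loop: the vertical ray from the cell
upwards crosses an odd number of edges -/
def Encl (m : ℕ) (f : ZMod m → ℤ × ℤ) (c : ℤ × ℤ) : Prop :=
  Odd (Nat.card {k : ZMod m // Above m f c.1 c.2 k})

/-- the area: the number of unit cells enclosed by the loop -/
noncomputable def area (m : ℕ) (f : ZMod m → ℤ × ℤ) : ℕ := Nat.card {c : ℤ × ℤ // Encl m f c}

/-- the proportion of the self-avoiding polygons of perimeter `2 n` with area at least `r` -/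
noncomputable def large (n : ℕ) (r : ℝ) : ℝ :=
  ({f : ZMod (2 * n) → ℤ × ℤ | IsLoop (2 * n) f ∧ r ≤ area (2 * n) f}.ncard : ℝ) /
    ({f : ZMod (2 * n) → ℤ × ℤ | IsLoop (2 * n) f}.ncard : ℝ)

/-- `ω` is an `n`-step self-avoiding walk on `ℤ²` started at the origin. -/
def IsSAW (n : ℕ) (ω : Fin (n + 1) → ℤ × ℤ) : Prop :=
  ω 0 = (0, 0) ∧
  (∀ i : Fin n, |(ω i.succ).1 - (ω i.castSucc).1| + |(ω i.succ).2 - (ω i.castSucc).2| = 1) ∧
  Function.Injective ω

/-- `c_n`: the number of `n`-step self-avoiding walks from the origin -/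
noncomputable def c (n : ℕ) : ℕ := Nat.card {ω : Fin (n + 1) → ℤ × ℤ // IsSAW n ω}

/-- the mean of `exp (l · ω(n))` under the uniform law on the `n`-step self-avoiding walks -/
noncomputable def force (n : ℕ) (l : ℝ × ℝ) : ℝ :=
  (∑ᶠ ω ∈ {ω : Fin (n + 1) → ℤ × ℤ | IsSAW n ω},
    Real.exp (l.1 * (ω (Fin.last n)).1 + l.2 * (ω (Fin.last n)).2)) / (c n : ℝ)

/-- the area (Lebesgue measure) of the set `{L ≤ h}` -/
noncomputable def V (L : ℝ × ℝ → ℝ) (h : ℝ) : ℝ :=
  (MeasureTheory.volume {l : ℝ × ℝ | L l ≤ h}).toReal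

/-- the numbers `√(s V(h)) - h`, `h ≥ 0` -/
def values (L : ℝ × ℝ → ℝ) (s : ℝ) : Set ℝ := {r | ∃ h : ℝ, 0 ≤ h ∧ r = √(s * V L h) - h}

theorem c_eq (n : ℕ) : c n = TH795.EP.c n := TH795.EP2.card_walks n

open Pool.Agent.TH795.EP in
theorem force_eq (n : ℕ) (l : ℝ × ℝ) : force n l = Y981.L2.Z l n / TH795.EP.c n := by
  unfold force
  rw [c_eq]
  congr 1
  have h1 := TH795.EP2.finsum_walks n (fun ω =>
    Real.exp (l.1 * (ω (Fin.last n)).1 + l.2 * (ω (Fin.last n)).2))
  refine h1.trans ?_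
  unfold Y981.L2.Z
  apply Finset.sum_congr rfl
  intro w hw
  rw [mem_fs] at hw
  rw [TH795.EP2.ew_last n hw.2]

open Filter Topology

/-- **Theorem.** There are a function `L` on `ℝ²` and a constant `K` such that
(1) `1/n log E_n[exp (l · ω(n))]` converges to `L(l)` for every force `l`, for the uniform `n`-step
self-avoiding walk `ω`; the level sets `{L ≤ h}` have finite areas `V(h)`;
(2) for `0 ≤ s < 1/4` the proportion of the self-avoiding polygons of perimeter `2 n` with area at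
least `s n^2` is `exp (- 2 n (J(s) + o(1)))` with `J(s) = sup_(h ≥ 0) (√(s V(h)) - h)`, a finite
supremum;
(3) for all `2 ≤ k ≤ n`, `h ≥ 0` and `6 / k ≤ s ≤ 1 / 4` it is at most
`exp (K k (log n)^2 - 2 n (√((s - 6 / k) V(h)) - h))`. -/
theorem result : ∃ (L : ℝ × ℝ → ℝ) (K : ℝ),
    (∀ l : ℝ × ℝ, Tendsto (fun n : ℕ => Real.log (force n l) / n) atTop (𝓝 (L l))) ∧
    (∀ h : ℝ, MeasureTheory.volume {l : ℝ × ℝ | L l ≤ h} ≠ ⊤) ∧
    (∀ s : ℝ, 0 ≤ s → s < 1 / 4 → BddAbove (values L s) ∧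
      Tendsto (fun n : ℕ => Real.log (large n (s * (n : ℝ) ^ 2)) / (2 * n)) atTop
        (𝓝 (-sSup (values L s)))) ∧
    ∀ n : ℕ, 2 ≤ n → ∀ k : ℕ, 2 ≤ k → k ≤ n → ∀ h s : ℝ, 0 ≤ h → 6 / (k : ℝ) ≤ s → s ≤ 1 / 4 →
      large n (s * (n : ℝ) ^ 2) ≤
        Real.exp (K * k * Real.log n ^ 2 - 2 * n * (√((s - 6 / k) * V L h) - h)) := by
  obtain ⟨K, hK, h2⟩ := U262.AR.area_upper'
  refine ⟨Y981.L2.Lam, K, ?_, fun h => U262.AR.vol_fin h, ?_, ?_⟩
  · intro l
    refine (U262.AR.lam_lim l).congr fun n => ?_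
    rw [force_eq]
  · intro s hs hs4
    have h3 := U262.AR.wulff_lub hs hs4
    have h4 : sSup (values Y981.L2.Lam s) = U262.AR.JJ s :=
      h3.csSup_eq ⟨_, 0, le_rfl, rfl⟩
    refine ⟨h3.bddAbove, ?_⟩
    rw [h4]
    refine (U262.AR.area_limit hs hs4).congr' ?_
    filter_upwards [eventually_ge_atTop 2] with n hn
    rw [U262.AR.LA_eq hn]
    rfl
  · intro n hn k hk hkn h s hh hs hs4
    refine (h2 n hn k hk hkn s).trans ?_
    apply Real.exp_le_exp.2
    have h5 : (0 : ℝ) < 6 / k := div_pos (by norm_num) (by exact_mod_cast (by omega : 0 < k))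
    have h3 := U262.AR.wulff_le (s := s - 6 / k) (h := h) (by linarith) (by linarith) hh
    have h4 : (0 : ℝ) ≤ 2 * n := by positivity
    have h6 := mul_le_mul_of_nonneg_left h3 h4
    have h7 : V Y981.L2.Lam h = U262.AR.VV h := rfl
    rw [h7]
    linarith

end Pool.Agent.Results.MP_2250b1_co.WulffFormula
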